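import Mathlib

set_option autoImplicit false

open Filter Topology

namespace Pool.Agent.Results.MP_dad682_an.InjectiveEnvelopeNorming

/-! ### Operators and matrices of operators -/

/-- `B(H)`, the bounded operators on `H`. -/
abbrev Op (H : Type*) [NormedAddCommGroup H] [InnerProductSpace ℂ H] : Type _ := H →L[ℂ] H

/-! Names for the usual instances of Mathlib on `B(H)` (they only shorten printed terms). -/
section Instances

variable (H : Type*) [NormedAddCommGroup H] [InnerProductSpace ℂ H]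

noncomputable instance (priority := high) opNorm : Norm (Op H) := inferInstance
noncomputable instance (priority := high) opTop : TopologicalSpace (Op H) :=
  UniformSpace.toTopologicalSpace
noncomputable instance (priority := high) opMul : Mul (Op H) := inferInstance
noncomputable instance (priority := high) opOne : One (Op H) := inferInstance
noncomputable instance (priority := high) opACM : AddCommMonoid (Op H) := inferInstance
noncomputable instance (priority := high) opMod : Module ℂ (Op H) := inferInstance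
noncomputable instance (priority := high) opStar [CompleteSpace H] : Star (Op H) := inferInstance

end Instances

/-- Spaces of operators: the linear subspaces of `B(H)`. -/
abbrev OpSpace (H : Type*) [NormedAddCommGroup H] [InnerProductSpace ℂ H] : Type _ :=
  Submodule ℂ (Op H)

/-- The norm of the `m × n` matrix `X` over `B(H)` as an operator `H^n → H^m`: the least `M ≥ 0`
with `‖X v‖ ≤ M ‖v‖` for all `v ∈ H^n`. -/
noncomputable def matNorm {H : Type*} [NormedAddCommGroup H] [InnerProductSpace ℂ H] {m n : ℕ}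
    (X : Fin m → Fin n → Op H) : ℝ :=
  sInf {M : ℝ | 0 ≤ M ∧ ∀ v : Fin n → H, ∑ i, ‖∑ j, X i j (v j)‖ ^ 2 ≤ M ^ 2 * ∑ j, ‖v j‖ ^ 2}

/-- A `C^*`-algebra of operators on `H`: a norm closed subspace of `B(H)` which is closed under
products and adjoints. -/
def IsCStar {H : Type*} [NormedAddCommGroup H] [InnerProductSpace ℂ H] [CompleteSpace H]
    (A : OpSpace H) : Prop :=
  IsClosed (A : Set (Op H)) ∧ (∀ x ∈ A, ∀ y ∈ A, x * y ∈ A) ∧ ∀ x ∈ A, star x ∈ A

/-- The subspace `S` of `B(H)` norms `B`: for every `k ≥ 1` and every `k × k` matrix `X` over `B`,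
the norm of `X` is the supremum of the norms of `R X C`, where `R` runs over the `1 × k` rows and
`C` over the `k × 1` columns of norm at most one with entries in `S`. -/
def Norms {H : Type*} [NormedAddCommGroup H] [InnerProductSpace ℂ H] (S B : OpSpace H) : Prop :=
  ∀ k : ℕ, 1 ≤ k → ∀ X : Fin k → Fin k → Op H, (∀ i j, X i j ∈ B) →
    IsLUB {r : ℝ | ∃ R C : Fin k → Op H,
      (∀ i, R i ∈ S) ∧ matNorm (fun (_ : Fin 1) j => R j) ≤ 1 ∧
      (∀ i, C i ∈ S) ∧ matNorm (fun i (_ : Fin 1) => C i) ≤ 1 ∧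
      r = ‖∑ i, ∑ j, R i * X i j * C j‖} (matNorm X)

/-- Linear maps between spaces of operators. -/
abbrev OpMap {H K : Type*} [NormedAddCommGroup H] [InnerProductSpace ℂ H]
    [NormedAddCommGroup K] [InnerProductSpace ℂ K] (S : OpSpace H) (T : OpSpace K) : Type _ :=
  S →ₗ[ℂ] T

/-- The value of a linear map between spaces of operators, as an operator. -/
noncomputable def app {H K : Type*} [NormedAddCommGroup H] [InnerProductSpace ℂ H]
    [NormedAddCommGroup K] [InnerProductSpace ℂ K] {S : OpSpace H} {T : OpSpace K}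
    (φ : OpMap S T) (x : S) : Op K := (φ x : Op K)

/-- Complete contractions between spaces of operators. -/
def IsCompleteContraction {H K : Type*} [NormedAddCommGroup H] [InnerProductSpace ℂ H]
    [NormedAddCommGroup K] [InnerProductSpace ℂ K]
    {S : OpSpace H} {T : OpSpace K} (φ : OpMap S T) : Prop :=
  ∀ (k : ℕ) (X : Fin k → Fin k → S),
    matNorm (fun i j => app φ (X i j)) ≤ matNorm fun i j => (X i j : Op H)

/-- Complete isometries between spaces of operators. -/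
def IsCompleteIsometry {H K : Type*} [NormedAddCommGroup H] [InnerProductSpace ℂ H]
    [NormedAddCommGroup K] [InnerProductSpace ℂ K]
    {S : OpSpace H} {T : OpSpace K} (φ : OpMap S T) : Prop :=
  ∀ (k : ℕ) (X : Fin k → Fin k → S),
    matNorm (fun i j => app φ (X i j)) = matNorm fun i j => (X i j : Op H)

/-- Injectivity: complete contractions into `E` extend from a space `S` of operators on a Hilbert
space `L` to any larger space `T` of operators on `L`. -/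
def IsInjective.{u} {K : Type} [NormedAddCommGroup K] [InnerProductSpace ℂ K]
    (E : OpSpace K) : Prop :=
  ∀ (L : Type u) [NormedAddCommGroup L] [InnerProductSpace ℂ L] [CompleteSpace L]
    (S T : OpSpace L), S ≤ T → ∀ φ : OpMap S E, IsCompleteContraction φ →
    ∃ Φ : OpMap T E, IsCompleteContraction Φ ∧
      ∀ (s : S) (t : T), (t : Op L) = s → app Φ t = app φ s

/-- The linear map `ι : A → E` is an injective `*`-homomorphism. -/
def IsStarEmbedding {H K : Type*} [NormedAddCommGroup H] [InnerProductSpace ℂ H] [CompleteSpace H]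
    [NormedAddCommGroup K] [InnerProductSpace ℂ K] [CompleteSpace K]
    {A : OpSpace H} {E : OpSpace K} (ι : OpMap A E) : Prop :=
  (∀ x y z : A, (z : Op H) = x * y → app ι z = app ι x * app ι y) ∧
  (∀ x z : A, (z : Op H) = star (x : Op H) → app ι z = star (app ι x)) ∧
  ∀ x y : A, app ι x = app ι y → x = y

/-- The identity is the only complete contraction of `E` into itself which is the identity on the
image of `ι : A → E`. -/
def IsRigid {H K : Type*} [NormedAddCommGroup H] [InnerProductSpace ℂ H]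
    [NormedAddCommGroup K] [InnerProductSpace ℂ K]
    {A : OpSpace H} {E : OpSpace K} (ι : OpMap A E) : Prop :=
  ∀ u : OpMap E E, IsCompleteContraction u → (∀ a : A, app u (ι a) = app ι a) →
    ∀ x : E, app u x = x

/-- `E`, together with the embedding `ι : A → E`, is an injective envelope of the `C^*`-algebra `A`:
`E` is an injective `C^*`-algebra, `ι` is an injective `*`-homomorphism, and the identity is the
only complete contraction of `E` into itself which is the identity on `ι(A)`. -/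
def IsInjectiveEnvelope.{u} {H K : Type}
    [NormedAddCommGroup H] [InnerProductSpace ℂ H] [CompleteSpace H]
    [NormedAddCommGroup K] [InnerProductSpace ℂ K] [CompleteSpace K]
    {A : OpSpace H} {E : OpSpace K} (ι : OpMap A E) : Prop :=
  IsCStar E ∧ IsInjective.{u} E ∧ IsStarEmbedding ι ∧ IsRigid ι

/-- `T ⊆ B(H)` is a completely isometric copy of the injective envelope of `A ⊆ B(H)`: it is the
range of a complete isometry `j`, from an injective envelope `E` of `A`, which is the identity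
on `A`. -/
def IsCopyOfInjectiveEnvelope.{u} {H : Type} [NormedAddCommGroup H] [InnerProductSpace ℂ H]
    [CompleteSpace H] (A T : OpSpace H) : Prop :=
  ∃ (K : Type) (_ : NormedAddCommGroup K) (_ : InnerProductSpace ℂ K) (_ : CompleteSpace K)
    (E : OpSpace K) (ι : OpMap A E) (j : OpMap E T),
    IsInjectiveEnvelope.{u} ι ∧ IsCompleteIsometry j ∧
    (∀ t : T, ∃ x : E, app j x = t) ∧ ∀ a : A, app j (ι a) = a

/-- `H^n`, with its Hilbert space norm. -/
abbrev Pow (n : ℕ) (H : Type*) [NormedAddCommGroup H] : Type _ := PiLp 2 (fun _ : Fin n => H)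

/-- The operator `H^n → H^m` given by an `m × n` matrix of bounded operators on `H`. -/
noncomputable def opMat {H : Type*} [NormedAddCommGroup H] [InnerProductSpace ℂ H] {m n : ℕ}
    (X : Fin m → Fin n → (H →L[ℂ] H)) : Pow n H →L[ℂ] Pow m H :=
  (PiLp.continuousLinearEquiv 2 ℂ (fun _ : Fin m => H)).symm.toContinuousLinearMap ∘L
    ContinuousLinearMap.pi fun i => ∑ j, (X i j) ∘L (PiLp.proj 2 (fun _ : Fin n => H) j)

/-! ### Basic facts -/

section Basic

variable {H : Type*} [NormedAddCommGroup H] {m n : ℕ}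

theorem norm_sq (v : Pow n H) : ‖v‖ ^ 2 = ∑ i, ‖v i‖ ^ 2 := PiLp.norm_sq_eq_of_L2 _ v

variable [InnerProductSpace ℂ H]

theorem opMat_apply (X : Fin m → Fin n → (H →L[ℂ] H)) (v : Pow n H) (i : Fin m) :
    (opMat X v) i = ∑ j, X i j (v j) := by
  simp [opMat]

/-- a bound on the norm of a matrix of operators gives a bound on vectors -/
theorem opMat_le (X : Fin m → Fin n → (H →L[ℂ] H)) {M : ℝ} (h : ‖opMat X‖ ≤ M)
    (v : Fin n → H) : ∑ i, ‖∑ j, X i j (v j)‖ ^ 2 ≤ M ^ 2 * ∑ j, ‖v j‖ ^ 2 := by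
  have h1 : ‖opMat X (WithLp.toLp 2 v)‖ ≤ M * ‖(WithLp.toLp 2 v : Pow n H)‖ :=
    (opMat X).le_of_opNorm_le h _
  have h2 := pow_le_pow_left₀ (norm_nonneg _) h1 2
  rw [mul_pow, norm_sq, norm_sq] at h2
  simpa [opMat_apply] using h2

theorem opMat_norm_le (X : Fin m → Fin n → (H →L[ℂ] H)) {M : ℝ} (hM : 0 ≤ M)
    (h : ∀ v : Fin n → H, ∑ i, ‖∑ j, X i j (v j)‖ ^ 2 ≤ M ^ 2 * ∑ j, ‖v j‖ ^ 2) :
    ‖opMat X‖ ≤ M := by
  refine ContinuousLinearMap.opNorm_le_bound _ hM fun v => ?_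
  refine le_of_sq_le_sq ?_ (by positivity)
  rw [mul_pow, norm_sq, norm_sq]
  simpa [opMat_apply] using h (fun j => v j)

theorem opMat_norm_le_iff (X : Fin m → Fin n → (H →L[ℂ] H)) {M : ℝ} (hM : 0 ≤ M) :
    ‖opMat X‖ ≤ M ↔
      ∀ v : Fin n → H, ∑ i, ‖∑ j, X i j (v j)‖ ^ 2 ≤ M ^ 2 * ∑ j, ‖v j‖ ^ 2 :=
  ⟨fun h v => opMat_le X h v, opMat_norm_le X hM⟩

theorem matNorm_eq (X : Fin m → Fin n → Op H) : matNorm X = ‖opMat X‖ := by
  have h : {M : ℝ | 0 ≤ M ∧ ∀ v : Fin n → H,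
      ∑ i, ‖∑ j, X i j (v j)‖ ^ 2 ≤ M ^ 2 * ∑ j, ‖v j‖ ^ 2} = Set.Ici ‖opMat X‖ := by
    ext M
    constructor
    · rintro ⟨h0, h⟩
      exact opMat_norm_le X h0 h
    · intro h
      have h1 : ‖opMat X‖ ≤ M := Set.mem_Ici.1 h
      have h2 : 0 ≤ ‖opMat X‖ := by positivity
      exact ⟨h2.trans h1, fun v => opMat_le X h1 v⟩
  unfold matNorm
  rw [h, csInf_Ici]

end Basic

/-! ### Diagonal operators on `ℓ²(ι)` -/

section Diag

variable {ι : Type}

/-- the Hilbert space `ℓ²(ι)` -/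
abbrev L2 (ι : Type) : Type := lp (fun _ : ι => ℂ) 2

theorem hasSum_sq (v : L2 ι) : HasSum (fun i => ‖v i‖ ^ 2) (‖v‖ ^ 2) := by
  have h := lp.hasSum_norm (p := 2) (by norm_num) v
  simpa using h

/-- the operator `T` is diagonal with diagonal `f` -/
def HasDiag (T : L2 ι →L[ℂ] L2 ι) (f : ι → ℂ) : Prop := ∀ (v : L2 ι) (i : ι), T v i = f i * v i

theorem exists_hasDiag (f : ι → ℂ) (C : ℝ) (hf : ∀ i, ‖f i‖ ≤ C) :
    ∃ T : L2 ι →L[ℂ] L2 ι, HasDiag T f := by
  have hC : ∀ i, ‖ContinuousLinearMap.mul ℂ ℂ (f i)‖ ≤ max C 0 := fun i =>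
    (ContinuousLinearMap.opNorm_mul_apply_le ℂ ℂ (f i)).trans ((hf i).trans (le_max_left _ _))
  refine ⟨lp.mapCLM 2 (fun i => ContinuousLinearMap.mul ℂ ℂ (f i)) (le_max_right C 0) hC,
    fun v i => ?_⟩
  rfl

variable [DecidableEq ι]

/-- basis vectors -/
noncomputable def e (i : ι) : L2 ι := lp.single 2 i (1 : ℂ)

theorem e_self (i : ι) : (e i : L2 ι) i = 1 := lp.single_apply_self _ _ _

theorem e_ne {i j : ι} (h : j ≠ i) : (e i : L2 ι) j = 0 := lp.single_apply_ne _ _ _ h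

theorem norm_e (i : ι) : ‖(e i : L2 ι)‖ = 1 := by
  rw [e, lp.norm_single (by norm_num)]
  simp

theorem HasDiag.apply_e {T : L2 ι →L[ℂ] L2 ι} {f : ι → ℂ} (h : HasDiag T f) (i : ι) :
    T (e i) i = f i := by
  rw [h, e_self, mul_one]

theorem HasDiag.norm_le {T : L2 ι →L[ℂ] L2 ι} {f : ι → ℂ} (h : HasDiag T f) (i : ι) :
    ‖f i‖ ≤ ‖T‖ := by
  rw [← h.apply_e i]
  calc ‖T (e i) i‖ ≤ ‖T (e i)‖ := lp.norm_apply_le_norm (by norm_num) _ _
    _ ≤ ‖T‖ * ‖(e i : L2 ι)‖ := T.le_opNorm _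
    _ = ‖T‖ := by rw [norm_e, mul_one]

theorem HasDiag.unique {T : L2 ι →L[ℂ] L2 ι} {f g : ι → ℂ} (hf : HasDiag T f) (hg : HasDiag T g) :
    f = g := by
  funext i
  rw [← hf.apply_e i, ← hg.apply_e i]

omit [DecidableEq ι] in
theorem HasDiag.ext {T S : L2 ι →L[ℂ] L2 ι} {f : ι → ℂ} (hT : HasDiag T f) (hS : HasDiag S f) :
    T = S := by
  ext v i
  rw [hT, hS]

theorem HasDiag.apply_single {T : L2 ι →L[ℂ] L2 ι} {f : ι → ℂ} (h : HasDiag T f) (i : ι) (a : ℂ) :
    T (a • e i) = (f i * a) • e i := by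
  ext j
  rw [h]
  by_cases hj : j = i
  · subst hj
    simp [e_self]
  · simp [e_ne hj]

/-- the norm of a matrix of diagonal operators is computed pointwise -/
theorem diag_norm_le_iff {m n : ℕ} (X : Fin m → Fin n → (L2 ι →L[ℂ] L2 ι))
    (F : Fin m → Fin n → ι → ℂ) (hX : ∀ p q, HasDiag (X p q) (F p q)) {M : ℝ} (hM : 0 ≤ M) :
    ‖opMat X‖ ≤ M ↔
      ∀ (i : ι) (a : Fin n → ℂ), ∑ p, ‖∑ q, F p q i * a q‖ ^ 2 ≤ M ^ 2 * ∑ q, ‖a q‖ ^ 2 := by
  rw [opMat_norm_le_iff X hM]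
  constructor
  · intro h i a
    have h1 := h (fun q => a q • e i)
    have h2 : ∀ p, ∑ q, X p q (a q • e i) = (∑ q, F p q i * a q) • (e i : L2 ι) := by
      intro p
      rw [Finset.sum_smul]
      exact Finset.sum_congr rfl fun q _ => (hX p q).apply_single i (a q)
    simp only [h2, norm_smul, norm_e, mul_one] at h1
    exact h1
  · intro h v
    have hL : HasSum (fun i => ∑ p, ‖∑ q, F p q i * v q i‖ ^ 2) (∑ p, ‖∑ q, X p q (v q)‖ ^ 2) := by
      refine hasSum_sum fun p _ => ?_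
      have h3 : ∀ i, (∑ q, X p q (v q)) i = ∑ q, F p q i * v q i := by
        intro i
        rw [lp.coeFn_sum, Finset.sum_apply]
        exact Finset.sum_congr rfl fun q _ => hX p q (v q) i
      simpa only [h3] using hasSum_sq (∑ q, X p q (v q))
    have hR : HasSum (fun i => M ^ 2 * ∑ q, ‖v q i‖ ^ 2) (M ^ 2 * ∑ q, ‖v q‖ ^ 2) :=
      (hasSum_sum fun q _ => hasSum_sq (v q)).mul_left _
    exact hasSum_le (fun i => h i fun q => v q i) hL hR

/-- the diagonal operator with a given (bounded) diagonal -/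
noncomputable def dg (f : ι → ℂ) : L2 ι →L[ℂ] L2 ι :=
  letI := Classical.propDecidable (∃ C : ℝ, ∀ i, ‖f i‖ ≤ C)
  if h : ∃ C : ℝ, ∀ i, ‖f i‖ ≤ C then (exists_hasDiag f h.choose h.choose_spec).choose else 0

omit [DecidableEq ι] in
theorem dg_hasDiag {f : ι → ℂ} {C : ℝ} (h : ∀ i, ‖f i‖ ≤ C) : HasDiag (dg f) f := by
  have h' : ∃ C : ℝ, ∀ i, ‖f i‖ ≤ C := ⟨C, h⟩
  unfold dg
  rw [dif_pos h']
  exact (exists_hasDiag f h'.choose h'.choose_spec).choose_spec

/-- the diagonal of an operator -/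
noncomputable def sym (T : L2 ι →L[ℂ] L2 ι) (i : ι) : ℂ := T (e i) i

theorem HasDiag.sym_eq {T : L2 ι →L[ℂ] L2 ι} {f : ι → ℂ} (h : HasDiag T f) : sym T = f := by
  funext i
  exact h.apply_e i

theorem HasDiag.sym {T : L2 ι →L[ℂ] L2 ι} {f : ι → ℂ} (h : HasDiag T f) : HasDiag T (sym T) := by
  rw [h.sym_eq]; exact h

theorem sym_norm_le (T : L2 ι →L[ℂ] L2 ι) (i : ι) : ‖sym T i‖ ≤ ‖T‖ := by
  calc ‖T (e i) i‖ ≤ ‖T (e i)‖ := lp.norm_apply_le_norm (by norm_num) _ _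
    _ ≤ ‖T‖ * ‖(e i : L2 ι)‖ := T.le_opNorm _
    _ = ‖T‖ := by rw [norm_e, mul_one]

theorem sym_add (T S : L2 ι →L[ℂ] L2 ι) (i : ι) : sym (T + S) i = sym T i + sym S i := rfl

theorem sym_sub (T S : L2 ι →L[ℂ] L2 ι) (i : ι) : sym (T - S) i = sym T i - sym S i := rfl

theorem sym_smul (c : ℂ) (T : L2 ι →L[ℂ] L2 ι) (i : ι) : sym (c • T) i = c * sym T i := rfl

omit [DecidableEq ι] in
theorem HasDiag.add {T S : L2 ι →L[ℂ] L2 ι} {f g : ι → ℂ} (hT : HasDiag T f) (hS : HasDiag S g) :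
    HasDiag (T + S) (fun i => f i + g i) := by
  intro v i
  change T v i + S v i = _
  rw [hT, hS]; ring

omit [DecidableEq ι] in
theorem HasDiag.smul (c : ℂ) {T : L2 ι →L[ℂ] L2 ι} {f : ι → ℂ} (hT : HasDiag T f) :
    HasDiag (c • T) (fun i => c * f i) := by
  intro v i
  change c * T v i = _
  rw [hT]; ring

omit [DecidableEq ι] in
theorem HasDiag.mul {T S : L2 ι →L[ℂ] L2 ι} {f g : ι → ℂ} (hT : HasDiag T f) (hS : HasDiag S g) :
    HasDiag (T * S) (fun i => f i * g i) := by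
  intro v i
  change T (S v) i = _
  rw [hT, hS]; ring

omit [DecidableEq ι] in
theorem hasDiag_zero : HasDiag (0 : L2 ι →L[ℂ] L2 ι) (fun _ => 0) := by
  intro v i
  change (0 : ℂ) = _
  ring

theorem inner_e (i : ι) (f : L2 ι) : inner ℂ (e i) f = f i := by
  simp [e, lp.inner_single_left]

theorem HasDiag.star {T : L2 ι →L[ℂ] L2 ι} {f : ι → ℂ} (hT : HasDiag T f) :
    HasDiag (star T) (fun i => (starRingEnd ℂ) (f i)) := by
  intro v i
  rw [← inner_e, ContinuousLinearMap.star_eq_adjoint, ContinuousLinearMap.adjoint_inner_right]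
  have h1 : T (e i) = f i • (e i : L2 ι) := by
    have := hT.apply_single i 1
    simpa using this
  rw [h1, inner_smul_left, inner_e]

theorem isClosed_hasDiag : IsClosed {T : L2 ι →L[ℂ] L2 ι | HasDiag T (sym T)} := by
  have : {T : L2 ι →L[ℂ] L2 ι | HasDiag T (sym T)} =
      ⋂ (v : L2 ι), ⋂ (i : ι), {T : L2 ι →L[ℂ] L2 ι | T v i = sym T i * v i} := by
    ext T
    simp [HasDiag]
  rw [this]
  have hc : ∀ (v : L2 ι) (i : ι), Continuous fun T : L2 ι →L[ℂ] L2 ι => T v i := fun v i =>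
    (lp.evalCLM ℂ (fun _ : ι => ℂ) 2 i).continuous.comp
      (ContinuousLinearMap.apply ℂ (L2 ι) v).continuous
  exact isClosed_iInter fun v => isClosed_iInter fun i =>
    isClosed_eq (hc v i) ((hc (e i) i).mul continuous_const)

end Diag

/-! ### The example -/

section Example

/-- the index set of `H = ℓ²(ℕ) ⊕ ℂ²` -/
abbrev J : Type := ℕ ⊕ Fin 2

/-- the algebra `ℓ^∞(ℕ)` of diagonal operators on `ℓ²(ℕ)` -/
noncomputable def E : Submodule ℂ (L2 ℕ →L[ℂ] L2 ℕ) where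
  carrier := {T | HasDiag T (sym T)}
  add_mem' := fun hS hT => (hS.add hT).sym
  zero_mem' := hasDiag_zero.sym
  smul_mem' := fun c _ hT => (hT.smul c).sym

theorem mem_E {T : L2 ℕ →L[ℂ] L2 ℕ} : T ∈ E ↔ HasDiag T (sym T) := Iff.rfl

/-- the algebra `A`: convergent sequences, acting on the additional two coordinates by the limit -/
noncomputable def A : Submodule ℂ (L2 J →L[ℂ] L2 J) where
  carrier := {T | HasDiag T (sym T) ∧
    ∀ b : Fin 2, Tendsto (fun n : ℕ => sym T (Sum.inl n)) atTop (𝓝 (sym T (Sum.inr b)))}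
  add_mem' := fun hS hT => ⟨(hS.1.add hT.1).sym, fun b => (hS.2 b).add (hT.2 b)⟩
  zero_mem' := ⟨hasDiag_zero.sym, fun _ => tendsto_const_nhds⟩
  smul_mem' := fun c _ hT => ⟨(hT.1.smul c).sym, fun b => (hT.2 b).const_mul c⟩

theorem mem_A {T : L2 J →L[ℂ] L2 J} : T ∈ A ↔ HasDiag T (sym T) ∧
    ∀ b : Fin 2, Tendsto (fun n : ℕ => sym T (Sum.inl n)) atTop (𝓝 (sym T (Sum.inr b))) := Iff.rfl

/-- the free ultrafilter used -/
noncomputable abbrev U : Ultrafilter ℕ := hyperfilter ℕ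

/-- the two subsequences -/
def sub (b : Fin 2) (n : ℕ) : ℕ := 2 * n + b.val

theorem sub_tendsto (b : Fin 2) : Tendsto (sub b) U atTop := by
  refine Tendsto.mono_left ?_ Nat.hyperfilter_le_atTop
  refine tendsto_atTop_mono (fun n => ?_) tendsto_id
  simp only [id, sub]
  omega

/-- the copy `T` of the injective envelope -/
noncomputable def TT : Submodule ℂ (L2 J →L[ℂ] L2 J) where
  carrier := {T | HasDiag T (sym T) ∧
    ∀ b : Fin 2, Tendsto (fun n : ℕ => sym T (Sum.inl (sub b n))) U (𝓝 (sym T (Sum.inr b)))}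
  add_mem' := fun hS hT => ⟨(hS.1.add hT.1).sym, fun b => (hS.2 b).add (hT.2 b)⟩
  zero_mem' := ⟨hasDiag_zero.sym, fun _ => tendsto_const_nhds⟩
  smul_mem' := fun c _ hT => ⟨(hT.1.smul c).sym, fun b => (hT.2 b).const_mul c⟩

theorem mem_TT {T : L2 J →L[ℂ] L2 J} : T ∈ TT ↔ HasDiag T (sym T) ∧
    ∀ b : Fin 2, Tendsto (fun n : ℕ => sym T (Sum.inl (sub b n))) U (𝓝 (sym T (Sum.inr b))) :=
  Iff.rfl

theorem isCStar_E : IsCStar E := by
  refine ⟨isClosed_hasDiag, fun x hx y hy => ?_, fun x hx => ?_⟩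
  · exact ((mem_E.1 hx).mul (mem_E.1 hy)).sym
  · exact (mem_E.1 hx).star.sym

theorem isCStar_A : IsCStar A := by
  refine ⟨?_, fun x hx y hy => ?_, fun x hx => ?_⟩
  · rw [← isSeqClosed_iff_isClosed]
    intro x T hx hT
    refine ⟨?_, fun b => ?_⟩
    · exact (isClosed_hasDiag (ι := J)).isSeqClosed (fun n => (hx n).1) hT
    · rw [Metric.tendsto_nhds]
      intro ε hε
      rw [Metric.tendsto_atTop] at hT
      obtain ⟨N, hN⟩ := hT (ε / 3) (by positivity)
      have h1 : ‖x N - T‖ < ε / 3 := by rw [← dist_eq_norm]; exact hN N le_rfl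
      have h2 := (Metric.tendsto_nhds.1 ((hx N).2 b)) (ε / 3) (by positivity)
      filter_upwards [h2] with n hn
      have h3 : ∀ i : J, dist (sym T i) (sym (x N) i) < ε / 3 := by
        intro i
        rw [dist_comm, dist_eq_norm, ← sym_sub]
        exact (sym_norm_le _ _).trans_lt h1
      calc dist (sym T (Sum.inl n)) (sym T (Sum.inr b))
          ≤ dist (sym T (Sum.inl n)) (sym (x N) (Sum.inl n)) +
            dist (sym (x N) (Sum.inl n)) (sym (x N) (Sum.inr b)) +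
            dist (sym (x N) (Sum.inr b)) (sym T (Sum.inr b)) := dist_triangle4 _ _ _ _
        _ < ε / 3 + ε / 3 + ε / 3 := by
          refine add_lt_add (add_lt_add (h3 _) hn) ?_
          rw [dist_comm]; exact h3 _
        _ = ε := by ring
  · refine ⟨(hx.1.mul hy.1).sym, fun b => ?_⟩
    rw [(hx.1.mul hy.1).sym_eq]
    exact (hx.2 b).mul (hy.2 b)
  · refine ⟨hx.1.star.sym, fun b => ?_⟩
    rw [hx.1.star.sym_eq]
    exact (Complex.continuous_conj.tendsto _).comp (hx.2 b)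

theorem isCStar_top {H : Type} [NormedAddCommGroup H] [InnerProductSpace ℂ H] [CompleteSpace H] :
    IsCStar (⊤ : Submodule ℂ (H →L[ℂ] H)) :=
  ⟨isClosed_univ, fun _ _ _ _ => trivial, fun _ _ => trivial⟩

/-- restriction of symbols to `ℕ` -/
theorem restr_bdd (T : L2 J →L[ℂ] L2 J) (n : ℕ) : ‖sym T (Sum.inl n)‖ ≤ ‖T‖ := sym_norm_le _ _

/-- the embedding of `A` in its injective envelope -/
noncomputable def ιA : A →ₗ[ℂ] E where
  toFun x := ⟨dg fun n => sym (x : L2 J →L[ℂ] L2 J) (Sum.inl n), (dg_hasDiag (restr_bdd _)).sym⟩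
  map_add' x y := by
    refine Subtype.ext ?_
    refine (dg_hasDiag (restr_bdd _)).ext ?_
    exact (dg_hasDiag (restr_bdd _)).add (dg_hasDiag (restr_bdd _))
  map_smul' c x := by
    refine Subtype.ext ?_
    refine (dg_hasDiag (restr_bdd _)).ext ?_
    exact (dg_hasDiag (restr_bdd _)).smul c

theorem ιA_hasDiag (x : A) :
    HasDiag (ιA x : L2 ℕ →L[ℂ] L2 ℕ) (fun n => sym (x : L2 J →L[ℂ] L2 J) (Sum.inl n)) :=
  dg_hasDiag (restr_bdd _)

theorem ιA_mul (x y z : A) (h : (z : L2 J →L[ℂ] L2 J) = x * y) :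
    (ιA z : L2 ℕ →L[ℂ] L2 ℕ) = ιA x * ιA y := by
  refine (ιA_hasDiag z).ext ?_
  have h1 := (ιA_hasDiag x).mul (ιA_hasDiag y)
  have h2 : (fun n : ℕ => sym (z : L2 J →L[ℂ] L2 J) (Sum.inl n)) =
      fun n => sym (x : L2 J →L[ℂ] L2 J) (Sum.inl n) * sym (y : L2 J →L[ℂ] L2 J) (Sum.inl n) := by
    rw [h, (x.2.1.mul y.2.1).sym_eq]
  rw [h2]
  exact h1

theorem ιA_star (x z : A) (h : (z : L2 J →L[ℂ] L2 J) = star (x : L2 J →L[ℂ] L2 J)) :
    (ιA z : L2 ℕ →L[ℂ] L2 ℕ) = star (ιA x : L2 ℕ →L[ℂ] L2 ℕ) := by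
  refine (ιA_hasDiag z).ext ?_
  have h1 := (ιA_hasDiag x).star
  have h2 : (fun n : ℕ => sym (z : L2 J →L[ℂ] L2 J) (Sum.inl n)) =
      fun n => (starRingEnd ℂ) (sym (x : L2 J →L[ℂ] L2 J) (Sum.inl n)) := by
    rw [h, x.2.1.star.sym_eq]
  rw [h2]
  exact h1

theorem ιA_injective : Function.Injective ιA := by
  intro x y hxy
  have h1 : (ιA x : L2 ℕ →L[ℂ] L2 ℕ) = ιA y := congrArg Subtype.val hxy
  have h2 : ∀ n : ℕ, sym (x : L2 J →L[ℂ] L2 J) (Sum.inl n) =
      sym (y : L2 J →L[ℂ] L2 J) (Sum.inl n) := by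
    have h3 := (ιA_hasDiag x)
    rw [h1] at h3
    intro n
    exact congrFun (h3.unique (ιA_hasDiag y)) n
  have h4 : sym (x : L2 J →L[ℂ] L2 J) = sym (y : L2 J →L[ℂ] L2 J) := by
    funext i
    rcases i with n | b
    · exact h2 n
    · have hx := x.2.2 b
      have hy := y.2.2 b
      simp only [h2] at hx
      exact tendsto_nhds_unique hx hy
  refine Subtype.ext ?_
  have hx := x.2.1
  rw [h4] at hx
  exact hx.ext y.2.1

/-- the projections onto basis vectors belong to `A` -/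
theorem exists_proj (n : ℕ) : ∃ a : A,
    HasDiag (ιA a : L2 ℕ →L[ℂ] L2 ℕ) (fun m => if m = n then 1 else 0) := by
  let f : J → ℂ := fun i => if i = Sum.inl n then 1 else 0
  have hf : ∀ i, ‖f i‖ ≤ 1 := by
    intro i
    simp only [f]
    split_ifs <;> simp
  have hd : HasDiag (dg f) f := dg_hasDiag hf
  have hmem : dg f ∈ A := by
    refine mem_A.2 ⟨hd.sym, fun b => ?_⟩
    rw [hd.sym_eq]
    have h0 : f (Sum.inr b) = 0 := by simp [f]
    rw [h0]
    refine tendsto_const_nhds.congr' ?_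
    filter_upwards [eventually_gt_atTop n] with m hm
    have : m ≠ n := by omega
    simp [f, this]
  refine ⟨⟨dg f, hmem⟩, ?_⟩
  have h1 := ιA_hasDiag ⟨dg f, hmem⟩
  have h2 : (fun m : ℕ => sym (dg f) (Sum.inl m)) = fun m => if m = n then 1 else 0 := by
    rw [hd.sym_eq]
    funext m
    simp [f]
  rw [← h2]
  exact h1

theorem opMat_one_norm {H : Type*} [NormedAddCommGroup H] [InnerProductSpace ℂ H]
    (T : H →L[ℂ] H) : ‖opMat (m := 1) (n := 1) fun _ _ => T‖ = ‖T‖ := by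
  apply le_antisymm
  · refine opMat_norm_le _ (norm_nonneg _) fun v => ?_
    simp only [Finset.univ_unique, Finset.sum_singleton]
    rw [← mul_pow]
    exact pow_le_pow_left₀ (norm_nonneg _) (T.le_opNorm _) 2
  · refine ContinuousLinearMap.opNorm_le_bound _ (by positivity) fun v => ?_
    have h := opMat_le (m := 1) (n := 1) (fun _ _ => T) (le_refl _) (fun _ => v)
    simp only [Finset.univ_unique, Finset.sum_singleton] at h
    rw [← mul_pow] at h
    exact le_of_sq_le_sq h (by positivity)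

theorem cc_norm_le {H K : Type*} [NormedAddCommGroup H] [InnerProductSpace ℂ H]
    [NormedAddCommGroup K] [InnerProductSpace ℂ K]
    {S : Submodule ℂ (H →L[ℂ] H)} {T : Submodule ℂ (K →L[ℂ] K)} {φ : S →ₗ[ℂ] T}
    (hφ : IsCompleteContraction φ) (x : S) : ‖(φ x : K →L[ℂ] K)‖ ≤ ‖(x : H →L[ℂ] H)‖ := by
  have h := hφ 1 fun _ _ => x
  rwa [matNorm_eq, matNorm_eq, opMat_one_norm, opMat_one_norm] at h

theorem diag_norm_le {ι : Type} [DecidableEq ι] {T : L2 ι →L[ℂ] L2 ι} {f : ι → ℂ}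
    (h : HasDiag T f) {M : ℝ} (hM : 0 ≤ M) (hf : ∀ i, ‖f i‖ ≤ M) : ‖T‖ ≤ M := by
  rw [← opMat_one_norm T, diag_norm_le_iff (fun _ _ => T) (fun _ _ => f) (fun _ _ => h) hM]
  intro i a
  simp only [Finset.univ_unique, Finset.sum_singleton]
  rw [norm_mul, mul_pow]
  gcongr
  exact hf i

theorem rigid_E (u : E →ₗ[ℂ] E) (hu : IsCompleteContraction u)
    (hA' : ∀ a, app u (ιA a) = app ιA a) :
    ∀ x : E, app u x = x := by
  have hA : ∀ a, u (ιA a) = ιA a := fun a => Subtype.ext (hA' a)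
  -- if the `n`-th diagonal entry of `T` vanishes, so does that of `u T`
  have key : ∀ (n : ℕ) (T : E), sym (T : L2 ℕ →L[ℂ] L2 ℕ) n = 0 →
      sym (u T : L2 ℕ →L[ℂ] L2 ℕ) n = 0 := by
    intro n T hT
    obtain ⟨a, ha⟩ := exists_proj n
    set P : E := ιA a with hP
    set z : ℂ := sym (u T : L2 ℕ →L[ℂ] L2 ℕ) n with hz
    by_contra hne
    have hz0 : 0 < ‖z‖ := norm_pos_iff.2 hne
    have hT0 : 0 < ‖(T : L2 ℕ →L[ℂ] L2 ℕ)‖ :=
      lt_of_lt_of_le (lt_of_lt_of_le hz0 (sym_norm_le _ _)) (cc_norm_le hu T)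
    -- the operator `P + lam T`
    set lam : ℂ := (starRingEnd ℂ) z / (‖z‖ * ‖(T : L2 ℕ →L[ℂ] L2 ℕ)‖) with hlam
    have hlamn : ‖lam‖ = 1 / ‖(T : L2 ℕ →L[ℂ] L2 ℕ)‖ := by
      rw [hlam, norm_div, RCLike.norm_conj, norm_mul]
      simp only [Complex.norm_real, norm_norm]
      field_simp
    have h1 : ‖((P + lam • T : E) : L2 ℕ →L[ℂ] L2 ℕ)‖ ≤ 1 := by
      have hd : HasDiag ((P + lam • T : E) : L2 ℕ →L[ℂ] L2 ℕ)
          (fun m => (if m = n then 1 else 0) + lam * sym (T : L2 ℕ →L[ℂ] L2 ℕ) m) :=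
        ha.add (T.2.smul lam)
      refine diag_norm_le hd zero_le_one fun m => ?_
      by_cases hm : m = n
      · subst hm
        simp [hT]
      · simp only [hm, if_false, zero_add, norm_mul, hlamn]
        rw [div_mul_eq_mul_div, one_mul, div_le_one hT0]
        exact sym_norm_le _ _
    have h2 : ‖sym (u (P + lam • T) : L2 ℕ →L[ℂ] L2 ℕ) n‖ ≤ 1 :=
      (sym_norm_le _ _).trans ((cc_norm_le hu _).trans h1)
    have h3 : sym (u (P + lam • T) : L2 ℕ →L[ℂ] L2 ℕ) n = 1 + lam * z := by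
      rw [map_add, map_smul, hP, hA a]
      change sym ((ιA a : L2 ℕ →L[ℂ] L2 ℕ) + lam • (u T : L2 ℕ →L[ℂ] L2 ℕ)) n = _
      rw [sym_add, sym_smul, ha.sym_eq]
      simp [hz]
    have h4 : lam * z = ((‖z‖ / ‖(T : L2 ℕ →L[ℂ] L2 ℕ)‖ : ℝ) : ℂ) := by
      rw [hlam, div_mul_eq_mul_div, mul_comm ((starRingEnd ℂ) z) z, Complex.mul_conj,
        Complex.normSq_eq_norm_sq]
      push_cast
      field_simp
    rw [h3, h4] at h2
    have h5 : (1 : ℂ) + ((‖z‖ / ‖(T : L2 ℕ →L[ℂ] L2 ℕ)‖ : ℝ) : ℂ) =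
        ((1 + ‖z‖ / ‖(T : L2 ℕ →L[ℂ] L2 ℕ)‖ : ℝ) : ℂ) := by push_cast; ring
    rw [h5, Complex.norm_real, Real.norm_eq_abs, abs_of_pos (by positivity)] at h2
    have : 0 < ‖z‖ / ‖(T : L2 ℕ →L[ℂ] L2 ℕ)‖ := by positivity
    linarith
  intro T
  have hsym : sym (u T : L2 ℕ →L[ℂ] L2 ℕ) = sym (T : L2 ℕ →L[ℂ] L2 ℕ) := by
    funext n
    obtain ⟨a, ha⟩ := exists_proj n
    set c : ℂ := sym (T : L2 ℕ →L[ℂ] L2 ℕ) n with hc
    have h0 : sym ((T - c • ιA a : E) : L2 ℕ →L[ℂ] L2 ℕ) n = 0 := by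
      change sym ((T : L2 ℕ →L[ℂ] L2 ℕ) - c • (ιA a : L2 ℕ →L[ℂ] L2 ℕ)) n = 0
      rw [sym_sub, sym_smul, ha.sym_eq]
      simp [hc]
    have h1 := key n _ h0
    rw [map_sub, map_smul, hA a] at h1
    change sym ((u T : L2 ℕ →L[ℂ] L2 ℕ) - c • (ιA a : L2 ℕ →L[ℂ] L2 ℕ)) n = 0 at h1
    rw [sym_sub, sym_smul, ha.sym_eq] at h1
    simpa [sub_eq_zero] using h1
  have h1 : HasDiag (u T : L2 ℕ →L[ℂ] L2 ℕ) (sym (T : L2 ℕ →L[ℂ] L2 ℕ)) := by
    rw [← hsym]; exact (u T).2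
  exact h1.ext T.2

/-- a contractive functional is completely contractive -/
theorem functional_cc {L : Type*} [NormedAddCommGroup L] [InnerProductSpace ℂ L]
    {k : ℕ} (X : Fin k → Fin k → (L →L[ℂ] L)) (g : (L →L[ℂ] L) →L[ℂ] ℂ) (hg : ‖g‖ ≤ 1)
    (a : Fin k → ℂ) :
    ∑ p, ‖∑ q, g (X p q) * a q‖ ^ 2 ≤ ‖opMat X‖ ^ 2 * ∑ q, ‖a q‖ ^ 2 := by
  set b : Fin k → ℂ := fun p => ∑ q, g (X p q) * a q with hb
  set Bs : ℝ := ∑ p, ‖b p‖ ^ 2 with hBs
  set As : ℝ := ∑ q, ‖a q‖ ^ 2 with hAs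
  have hB0 : 0 ≤ Bs := Finset.sum_nonneg fun _ _ => by positivity
  have hA0 : 0 ≤ As := Finset.sum_nonneg fun _ _ => by positivity
  -- the operator `Y = ∑ conj (b p) X p q a q`
  set Y : L →L[ℂ] L := ∑ p, ∑ q, ((starRingEnd ℂ) (b p) * a q) • X p q with hY
  have h1 : g Y = (Bs : ℂ) := by
    rw [hY, map_sum]
    have : ∀ p, g (∑ q, ((starRingEnd ℂ) (b p) * a q) • X p q) = ((‖b p‖ ^ 2 : ℝ) : ℂ) := by
      intro p
      rw [map_sum]
      simp only [map_smul, smul_eq_mul]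
      have h2 : ∑ q, (starRingEnd ℂ) (b p) * a q * g (X p q) = (starRingEnd ℂ) (b p) * b p := by
        rw [hb, Finset.mul_sum]
        exact Finset.sum_congr rfl fun q _ => by ring
      rw [h2, mul_comm, Complex.mul_conj, Complex.normSq_eq_norm_sq]
    rw [Finset.sum_congr rfl fun p _ => this p, hBs]
    push_cast
    rfl
  have h2 : ‖Y‖ ≤ ‖opMat X‖ * Real.sqrt As * Real.sqrt Bs := by
    refine ContinuousLinearMap.opNorm_le_bound _ (by positivity) fun v => ?_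
    have hYv : Y v = ∑ p, (starRingEnd ℂ) (b p) • ∑ q, X p q (a q • v) := by
      rw [hY]
      simp only [sum_apply, smul_apply, map_smul,
        Finset.smul_sum, smul_smul]
    have h3 : ∑ p, ‖∑ q, X p q (a q • v)‖ ^ 2 ≤ ‖opMat X‖ ^ 2 * (As * ‖v‖ ^ 2) := by
      have := opMat_le X le_rfl (fun q => a q • v)
      simp only [norm_smul, mul_pow] at this
      rwa [← Finset.sum_mul] at this
    rw [hYv]
    calc ‖∑ p, (starRingEnd ℂ) (b p) • ∑ q, X p q (a q • v)‖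
        ≤ ∑ p, ‖(starRingEnd ℂ) (b p) • ∑ q, X p q (a q • v)‖ := norm_sum_le _ _
      _ = ∑ p, ‖b p‖ * ‖∑ q, X p q (a q • v)‖ := by
          refine Finset.sum_congr rfl fun p _ => ?_
          rw [norm_smul, RCLike.norm_conj]
      _ ≤ Real.sqrt (∑ p, ‖b p‖ ^ 2) * Real.sqrt (∑ p, ‖∑ q, X p q (a q • v)‖ ^ 2) :=
          Real.sum_mul_le_sqrt_mul_sqrt _ _ _
      _ ≤ Real.sqrt Bs * Real.sqrt (‖opMat X‖ ^ 2 * (As * ‖v‖ ^ 2)) := by
          gcongr
      _ = ‖opMat X‖ * Real.sqrt As * Real.sqrt Bs * ‖v‖ := by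
          have e1 : Real.sqrt (‖opMat X‖ ^ 2) = ‖opMat X‖ := Real.sqrt_sq (by positivity)
          have e2 : Real.sqrt (‖v‖ ^ 2) = ‖v‖ := Real.sqrt_sq (by positivity)
          rw [Real.sqrt_mul (by positivity), e1, Real.sqrt_mul hA0, e2]
          ring
  have h3 : Bs ≤ ‖opMat X‖ * Real.sqrt As * Real.sqrt Bs := by
    calc Bs = ‖g Y‖ := by rw [h1, Complex.norm_real, Real.norm_eq_abs, abs_of_nonneg hB0]
      _ ≤ ‖g‖ * ‖Y‖ := g.le_opNorm _
      _ ≤ 1 * ‖Y‖ := by gcongr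
      _ ≤ _ := by rw [one_mul]; exact h2
  have h4 : Real.sqrt Bs * Real.sqrt Bs = Bs := Real.mul_self_sqrt hB0
  have h5 : Real.sqrt As * Real.sqrt As = As := Real.mul_self_sqrt hA0
  by_cases hz : Real.sqrt Bs = 0
  · have : Bs = 0 := by rw [← h4, hz, zero_mul]
    rw [this]; positivity
  · have hpos : 0 < Real.sqrt Bs := lt_of_le_of_ne (Real.sqrt_nonneg _) (Ne.symm hz)
    have h6 : Real.sqrt Bs ≤ ‖opMat X‖ * Real.sqrt As := by
      refine le_of_mul_le_mul_right ?_ hpos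
      rw [h4]; exact h3
    calc Bs = Real.sqrt Bs ^ 2 := by rw [sq, h4]
      _ ≤ (‖opMat X‖ * Real.sqrt As) ^ 2 := pow_le_pow_left₀ (Real.sqrt_nonneg _) h6 2
      _ = ‖opMat X‖ ^ 2 * As := by rw [mul_pow, sq (Real.sqrt As), h5]

theorem injective_E.{u} : IsInjective.{u} E := by
  intro L _ _ _ S T hST φ hφ
  -- coordinate functionals
  have hex : ∀ n : ℕ, ∃ g : (L →L[ℂ] L) →L[ℂ] ℂ, ‖g‖ ≤ 1 ∧
      ∀ s : S, g s = sym (φ s : L2 ℕ →L[ℂ] L2 ℕ) n := by
    intro n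
    let f₀ : S →ₗ[ℂ] ℂ :=
      { toFun := fun s => sym (φ s : L2 ℕ →L[ℂ] L2 ℕ) n
        map_add' := fun x y => by rw [map_add]; rfl
        map_smul' := fun c x => by rw [map_smul]; rfl }
    let f : S →L[ℂ] ℂ := f₀.mkContinuous 1 fun s => by
      rw [one_mul]
      exact (sym_norm_le _ n).trans (cc_norm_le hφ s)
    obtain ⟨g, hg, hgn⟩ := exists_extension_norm_eq (𝕜 := ℂ) S f
    refine ⟨g, ?_, fun s => ?_⟩
    · rw [hgn]
      exact f₀.mkContinuous_norm_le zero_le_one _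
    · rw [hg]; rfl
  choose g hg1 hgS using hex
  have hbd : ∀ (t : L →L[ℂ] L) (n : ℕ), ‖g n t‖ ≤ ‖t‖ := by
    intro t n
    calc ‖g n t‖ ≤ ‖g n‖ * ‖t‖ := (g n).le_opNorm t
      _ ≤ 1 * ‖t‖ := by gcongr; exact hg1 n
      _ = ‖t‖ := one_mul _
  have hD : ∀ t : L →L[ℂ] L, HasDiag (dg fun n => g n t) fun n => g n t :=
    fun t => dg_hasDiag (hbd t)
  let Φ : T →ₗ[ℂ] E :=
    { toFun := fun t => ⟨dg fun n => g n t, (hD t).sym⟩
      map_add' := fun x y => by
        refine Subtype.ext ?_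
        refine (hD _).ext ?_
        have := (hD x).add (hD y)
        simpa only [Submodule.coe_add, map_add] using this
      map_smul' := fun c x => by
        refine Subtype.ext ?_
        refine (hD _).ext ?_
        have := (hD x).smul c
        simpa only [Submodule.coe_smul, map_smul, smul_eq_mul, RingHom.id_apply] using this }
  refine ⟨Φ, ?_, ?_⟩
  · intro k X
    rw [matNorm_eq, matNorm_eq]
    change ‖opMat fun i j => (Φ (X i j) : L2 ℕ →L[ℂ] L2 ℕ)‖ ≤ _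
    rw [diag_norm_le_iff (fun i j => (Φ (X i j) : L2 ℕ →L[ℂ] L2 ℕ))
      (fun i j n => g n (X i j)) (fun i j => hD _) (norm_nonneg _)]
    intro n a
    exact functional_cc (fun i j => (X i j : L →L[ℂ] L)) (g n) (hg1 n) a
  · intro s t hts
    change dg (fun n => g n (t : L →L[ℂ] L)) = (φ s : L2 ℕ →L[ℂ] L2 ℕ)
    rw [hts]
    refine (hD (s : L →L[ℂ] L)).ext ?_
    have h1 : (fun n => g n (s : L →L[ℂ] L)) = sym (φ s : L2 ℕ →L[ℂ] L2 ℕ) := by
      funext n; exact hgS n s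
    rw [h1]
    exact (φ s).2

theorem isInjectiveEnvelope.{u} : IsInjectiveEnvelope.{u} ιA :=
  ⟨isCStar_E, injective_E, ⟨ιA_mul, ιA_star, fun _ _ h => ιA_injective (Subtype.ext h)⟩, rigid_E⟩

/-! ### The copy of the injective envelope -/

theorem exists_ulim (f : ℕ → ℂ) (C : ℝ) (hf : ∀ k, ‖f k‖ ≤ C) :
    ∃ a : ℂ, Tendsto f U (𝓝 a) ∧ ‖a‖ ≤ C := by
  have hK : IsCompact (Metric.closedBall (0 : ℂ) C) := isCompact_closedBall 0 C
  have hmem : ((U.map f : Ultrafilter ℂ) : Filter ℂ) ≤ 𝓟 (Metric.closedBall (0 : ℂ) C) := by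
    rw [le_principal_iff]
    change ∀ᶠ k in (U : Filter ℕ), f k ∈ Metric.closedBall (0 : ℂ) C
    exact Eventually.of_forall fun k => by simpa [Metric.mem_closedBall, dist_zero_right] using hf k
  obtain ⟨a, ha, hle⟩ := hK.ultrafilter_le_nhds (U.map f) hmem
  refine ⟨a, ?_, by simpa [Metric.mem_closedBall, dist_zero_right] using ha⟩
  simpa [Tendsto] using hle

theorem exists_ext (T : L2 ℕ →L[ℂ] L2 ℕ) : ∃ f : J → ℂ,
    (∀ n, f (Sum.inl n) = sym T n) ∧ (∀ i, ‖f i‖ ≤ ‖T‖) ∧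
    ∀ b : Fin 2, Tendsto (fun n => sym T (sub b n)) U (𝓝 (f (Sum.inr b))) := by
  have h : ∀ b : Fin 2, ∃ a : ℂ, Tendsto (fun n => sym T (sub b n)) U (𝓝 a) ∧ ‖a‖ ≤ ‖T‖ :=
    fun b => exists_ulim _ _ fun n => sym_norm_le _ _
  choose l hl hln using h
  refine ⟨Sum.elim (sym T) l, fun n => rfl, ?_, fun b => hl b⟩
  rintro (n | b)
  · exact sym_norm_le _ _
  · exact hln b

/-- the extended symbol -/
noncomputable def exs (T : L2 ℕ →L[ℂ] L2 ℕ) : J → ℂ := (exists_ext T).choose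

theorem exs_inl (T : L2 ℕ →L[ℂ] L2 ℕ) (n : ℕ) : exs T (Sum.inl n) = sym T n :=
  (exists_ext T).choose_spec.1 n

theorem exs_norm (T : L2 ℕ →L[ℂ] L2 ℕ) (i : J) : ‖exs T i‖ ≤ ‖T‖ :=
  (exists_ext T).choose_spec.2.1 i

theorem exs_lim (T : L2 ℕ →L[ℂ] L2 ℕ) (b : Fin 2) :
    Tendsto (fun n => sym T (sub b n)) U (𝓝 (exs T (Sum.inr b))) :=
  (exists_ext T).choose_spec.2.2 b

theorem exs_hasDiag (T : L2 ℕ →L[ℂ] L2 ℕ) : HasDiag (dg (exs T)) (exs T) :=
  dg_hasDiag (exs_norm T)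

theorem exs_mem (T : L2 ℕ →L[ℂ] L2 ℕ) : dg (exs T) ∈ TT := by
  refine mem_TT.2 ⟨(exs_hasDiag T).sym, fun b => ?_⟩
  rw [(exs_hasDiag T).sym_eq]
  simp only [exs_inl]
  exact exs_lim T b

/-- a function determined by its values on `ℕ` and by the limits along the two subsequences -/
theorem exs_unique (T : L2 ℕ →L[ℂ] L2 ℕ) (f : J → ℂ) (h1 : ∀ n, f (Sum.inl n) = sym T n)
    (h2 : ∀ b : Fin 2, Tendsto (fun n => sym T (sub b n)) U (𝓝 (f (Sum.inr b)))) :
    exs T = f := by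
  funext i
  rcases i with n | b
  · rw [exs_inl, h1]
  · exact tendsto_nhds_unique (exs_lim T b) (h2 b)

/-- the complete isometry onto the copy -/
noncomputable def jE : E →ₗ[ℂ] TT where
  toFun x := ⟨dg (exs (x : L2 ℕ →L[ℂ] L2 ℕ)), exs_mem _⟩
  map_add' x y := by
    refine Subtype.ext ?_
    refine (exs_hasDiag _).ext ?_
    have h := (exs_hasDiag (x : L2 ℕ →L[ℂ] L2 ℕ)).add (exs_hasDiag (y : L2 ℕ →L[ℂ] L2 ℕ))
    have hu : exs ((x + y : E) : L2 ℕ →L[ℂ] L2 ℕ) =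
        fun i => exs (x : L2 ℕ →L[ℂ] L2 ℕ) i + exs (y : L2 ℕ →L[ℂ] L2 ℕ) i :=
      exs_unique ((x + y : E) : L2 ℕ →L[ℂ] L2 ℕ) _
        (fun n => by rw [exs_inl, exs_inl]; rfl)
        (fun b => (exs_lim (x : L2 ℕ →L[ℂ] L2 ℕ) b).add (exs_lim (y : L2 ℕ →L[ℂ] L2 ℕ) b))
    rw [hu]
    exact h
  map_smul' c x := by
    refine Subtype.ext ?_
    refine (exs_hasDiag _).ext ?_
    have h := (exs_hasDiag (x : L2 ℕ →L[ℂ] L2 ℕ)).smul c
    have hu : exs ((c • x : E) : L2 ℕ →L[ℂ] L2 ℕ) =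
        fun i => c * exs (x : L2 ℕ →L[ℂ] L2 ℕ) i :=
      exs_unique ((c • x : E) : L2 ℕ →L[ℂ] L2 ℕ) _
        (fun n => by rw [exs_inl]; rfl)
        (fun b => (exs_lim (x : L2 ℕ →L[ℂ] L2 ℕ) b).const_mul c)
    rw [hu]
    exact h

theorem jE_hasDiag (x : E) : HasDiag (jE x : L2 J →L[ℂ] L2 J) (exs (x : L2 ℕ →L[ℂ] L2 ℕ)) :=
  exs_hasDiag _

theorem jE_isometry : IsCompleteIsometry jE := by
  intro k X
  rw [matNorm_eq, matNorm_eq]
  change ‖opMat fun i j => (jE (X i j) : L2 J →L[ℂ] L2 J)‖ = _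
  apply le_antisymm
  · rw [diag_norm_le_iff (fun i j => (jE (X i j) : L2 J →L[ℂ] L2 J))
      (fun i j => exs (X i j : L2 ℕ →L[ℂ] L2 ℕ)) (fun i j => jE_hasDiag _) (norm_nonneg _)]
    have h := (diag_norm_le_iff (fun i j => (X i j : L2 ℕ →L[ℂ] L2 ℕ))
      (fun i j => sym (X i j : L2 ℕ →L[ℂ] L2 ℕ)) (fun i j => (X i j).2)
      (norm_nonneg (opMat fun i j => (X i j : L2 ℕ →L[ℂ] L2 ℕ)))).1 le_rfl
    rintro (n | b) a
    · simp only [exs_inl]
      exact h n a
    · have hlim : Tendsto (fun n => ∑ p, ‖∑ q, sym (X p q : L2 ℕ →L[ℂ] L2 ℕ) (sub b n) * a q‖ ^ 2)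
          U (𝓝 (∑ p, ‖∑ q, exs (X p q : L2 ℕ →L[ℂ] L2 ℕ) (Sum.inr b) * a q‖ ^ 2)) := by
        refine tendsto_finsetSum _ fun p _ => ?_
        refine Tendsto.pow ?_ 2
        refine Tendsto.norm ?_
        refine tendsto_finsetSum _ fun q _ => ?_
        exact (exs_lim _ b).mul_const _
      exact le_of_tendsto hlim (Eventually.of_forall fun n => h (sub b n) a)
  · rw [diag_norm_le_iff (fun i j => (X i j : L2 ℕ →L[ℂ] L2 ℕ))
      (fun i j => sym (X i j : L2 ℕ →L[ℂ] L2 ℕ)) (fun i j => (X i j).2) (norm_nonneg _)]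
    have h := (diag_norm_le_iff (fun i j => (jE (X i j) : L2 J →L[ℂ] L2 J))
      (fun i j => exs (X i j : L2 ℕ →L[ℂ] L2 ℕ)) (fun i j => jE_hasDiag _)
      (norm_nonneg (opMat fun i j => (jE (X i j) : L2 J →L[ℂ] L2 J)))).1 le_rfl
    intro n a
    have := h (Sum.inl n) a
    simpa only [exs_inl] using this

theorem jE_surjective : Function.Surjective jE := by
  intro y
  have hy := mem_TT.1 y.2
  have hb : ∀ n : ℕ, ‖sym (y : L2 J →L[ℂ] L2 J) (Sum.inl n)‖ ≤ ‖(y : L2 J →L[ℂ] L2 J)‖ :=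
    fun n => sym_norm_le _ _
  have hd := dg_hasDiag (f := fun n : ℕ => sym (y : L2 J →L[ℂ] L2 J) (Sum.inl n)) hb
  refine ⟨⟨dg fun n => sym (y : L2 J →L[ℂ] L2 J) (Sum.inl n), hd.sym⟩, ?_⟩
  refine Subtype.ext ?_
  refine (jE_hasDiag _).ext ?_
  have h1 : exs (dg fun n => sym (y : L2 J →L[ℂ] L2 J) (Sum.inl n)) =
      sym (y : L2 J →L[ℂ] L2 J) := by
    refine exs_unique _ _ (fun n => by rw [hd.sym_eq]) fun b => ?_
    rw [hd.sym_eq]
    exact hy.2 b
  change HasDiag (y : L2 J →L[ℂ] L2 J) (exs (dg fun n => sym (y : L2 J →L[ℂ] L2 J) (Sum.inl n)))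
  rw [h1]
  exact hy.1

theorem jE_ιA (a : A) : (jE (ιA a) : L2 J →L[ℂ] L2 J) = a := by
  have ha := mem_A.1 a.2
  refine (jE_hasDiag _).ext ?_
  have h1 : exs (ιA a : L2 ℕ →L[ℂ] L2 ℕ) = sym (a : L2 J →L[ℂ] L2 J) := by
    refine exs_unique _ _ (fun n => by rw [(ιA_hasDiag a).sym_eq]) fun b => ?_
    rw [(ιA_hasDiag a).sym_eq]
    exact (ha.2 b).comp (sub_tendsto b)
  rw [h1]
  exact ha.1

theorem isCopy.{u} : IsCopyOfInjectiveEnvelope.{u} A TT :=
  ⟨L2 ℕ, inferInstance, inferInstance, inferInstance, E, ιA, jE, isInjectiveEnvelope,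
    jE_isometry, fun t => (jE_surjective t).imp fun _ h => congrArg Subtype.val h, jE_ιA⟩

/-! ### The copy norms `B(H)` -/

theorem sub_injective (b : Fin 2) : Function.Injective (sub b) := by
  intro m n h
  simp only [sub] at h
  omega

theorem ofNat_sub (b : Fin 2) (n : ℕ) : Fin.ofNat 2 (sub b n) = b := by
  apply Fin.ext
  simp only [Fin.ofNat, sub]
  omega

theorem column_lemma {k : ℕ} (v : Fin k → L2 J) (s : Finset J)
    (hv : ∀ q, ∀ i ∉ s, v q i = 0) :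
    ∃ (C : Fin k → (L2 J →L[ℂ] L2 J)) (c : Fin k → J → ℂ) (η : L2 J),
      (∀ q, C q ∈ TT) ∧ (∀ q, HasDiag (C q) (c q)) ∧ (∀ i, ∑ q, ‖c q i‖ ^ 2 ≤ 1) ∧
      (∀ q, C q η = v q) ∧ ‖η‖ ^ 2 = ∑ q, ‖v q‖ ^ 2 := by
  classical
  set N : J → ℝ := fun i => Real.sqrt (∑ q, ‖v q i‖ ^ 2) with hN
  have hN0 : ∀ i, 0 ≤ N i := fun i => Real.sqrt_nonneg _
  have hN2 : ∀ i, N i ^ 2 = ∑ q, ‖v q i‖ ^ 2 := fun i =>
    Real.sq_sqrt (Finset.sum_nonneg fun _ _ => by positivity)
  have hNz : ∀ i, N i = 0 → ∀ q, v q i = 0 := by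
    intro i hi q
    have h1 : ∑ q, ‖v q i‖ ^ 2 = 0 := by rw [← hN2, hi]; norm_num
    have h2 := (Finset.sum_eq_zero_iff_of_nonneg (fun q _ => by positivity)).1 h1 q
      (Finset.mem_univ q)
    have h3 : ‖v q i‖ = 0 := by simpa using h2
    exact norm_eq_zero.1 h3
  set u : Fin k → J → ℂ := fun q i => v q i / (N i : ℂ) with hu
  have hu1 : ∀ i, ∑ q, ‖u q i‖ ^ 2 ≤ 1 := by
    intro i
    have : ∑ q, ‖u q i‖ ^ 2 = (∑ q, ‖v q i‖ ^ 2) / N i ^ 2 := by
      rw [Finset.sum_div]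
      refine Finset.sum_congr rfl fun q _ => ?_
      rw [hu, norm_div, div_pow, Complex.norm_real, Real.norm_eq_abs, sq_abs]
    rw [this, ← hN2]
    exact div_self_le_one _
  set c : Fin k → J → ℂ := fun q => Sum.elim
    (fun n => if (Sum.inl n : J) ∈ s then u q (Sum.inl n) else u q (Sum.inr (Fin.ofNat 2 n)))
    (fun b => u q (Sum.inr b)) with hc
  have hc1 : ∀ i, ∑ q, ‖c q i‖ ^ 2 ≤ 1 := by
    rintro (n | b)
    · by_cases hn : (Sum.inl n : J) ∈ s
      · simp only [hc, Sum.elim_inl, hn, if_true]; exact hu1 _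
      · simp only [hc, Sum.elim_inl, hn, if_false]; exact hu1 _
    · simp only [hc, Sum.elim_inr]; exact hu1 _
  have hcn : ∀ q i, ‖c q i‖ ≤ 1 := by
    intro q i
    have h1 : ‖c q i‖ ^ 2 ≤ 1 :=
      (Finset.single_le_sum (f := fun q => ‖c q i‖ ^ 2) (fun _ _ => by positivity)
        (Finset.mem_univ q)).trans (hc1 i)
    exact (sq_le_one_iff₀ (norm_nonneg _)).1 h1
  have hd : ∀ q, HasDiag (dg (c q)) (c q) := fun q => dg_hasDiag (hcn q)
  have hsum : HasSum (fun i => N i ^ 2) (∑ q, ‖v q‖ ^ 2) := by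
    simp only [hN2]
    exact hasSum_sum fun q _ => hasSum_sq (v q)
  have hmem : Memℓp (fun i => ((N i : ℝ) : ℂ)) (2 : ENNReal) := by
    apply memℓp_gen
    have : (fun i => ‖((N i : ℝ) : ℂ)‖ ^ (2 : ENNReal).toReal) = fun i => N i ^ 2 := by
      funext i
      rw [Complex.norm_real, Real.norm_eq_abs, abs_of_nonneg (hN0 i)]
      norm_num
    rw [this]
    exact hsum.summable
  refine ⟨fun q => dg (c q), c, ⟨_, hmem⟩, fun q => ?_, hd, hc1, fun q => ?_, ?_⟩
  · refine mem_TT.2 ⟨(hd q).sym, fun b => ?_⟩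
    rw [(hd q).sym_eq]
    refine tendsto_const_nhds.congr' ?_
    have hfin : {n : ℕ | (Sum.inl (sub b n) : J) ∈ s}.Finite := by
      refine Set.Finite.preimage (f := fun n : ℕ => (Sum.inl (sub b n) : J)) ?_ s.finite_toSet
      intro x _ y _ hxy
      exact sub_injective b (Sum.inl_injective hxy)
    have hev : ∀ᶠ n in (U : Filter ℕ), ¬ (Sum.inl (sub b n) : J) ∈ s :=
      hyperfilter_le_cofinite hfin.compl_mem_cofinite
    filter_upwards [hev] with n hn
    simp only [hc, Sum.elim_inl, hn, if_false, Sum.elim_inr, ofNat_sub]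
  · ext i
    rw [hd q]
    change c q i * (N i : ℂ) = v q i
    have hui : u q i * (N i : ℂ) = v q i := by
      by_cases h0 : N i = 0
      · rw [h0, hNz i h0 q]; simp
      · have : (N i : ℂ) ≠ 0 := by exact_mod_cast h0
        simp only [hu]
        field_simp
    rcases i with n | b
    · by_cases hn : (Sum.inl n : J) ∈ s
      · simp only [hc, Sum.elim_inl, hn, if_true]; exact hui
      · have h0 : ∀ q, v q (Sum.inl n) = 0 := fun q => hv q _ hn
        have hN' : N (Sum.inl n) = 0 := by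
          simp only [hN, h0]
          simp
        rw [hN', h0 q]; simp
    · simp only [hc, Sum.elim_inr]; exact hui
  · have h1 := hasSum_sq (⟨_, hmem⟩ : L2 J)
    have h2 : (fun i => ‖(⟨_, hmem⟩ : L2 J) i‖ ^ 2) = fun i => N i ^ 2 := by
      funext i
      change ‖((N i : ℝ) : ℂ)‖ ^ 2 = _
      rw [Complex.norm_real, Real.norm_eq_abs, sq_abs]
    rw [h2] at h1
    exact h1.unique hsum

theorem TT_star {T : L2 J →L[ℂ] L2 J} (hT : T ∈ TT) : star T ∈ TT := by
  have h := mem_TT.1 hT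
  refine mem_TT.2 ⟨h.1.star.sym, fun b => ?_⟩
  rw [h.1.star.sym_eq]
  exact (Complex.continuous_conj.tendsto _).comp (h.2 b)

theorem pow_one_norm {H : Type*} [NormedAddCommGroup H] (z : Pow 1 H) : ‖z‖ = ‖z 0‖ := by
  have h := norm_sq z
  simp only [Finset.univ_unique, Fin.default_eq_zero, Finset.sum_singleton] at h
  exact (pow_left_inj₀ (norm_nonneg _) (norm_nonneg _) two_ne_zero).1 h

theorem finite_support_bound {k : ℕ} (X : Fin k → Fin k → (L2 J →L[ℂ] L2 J)) {M : ℝ} (hM0 : 0 ≤ M)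
    (hM : ∀ (R : Fin 1 → Fin k → (L2 J →L[ℂ] L2 J)) (C : Fin k → Fin 1 → (L2 J →L[ℂ] L2 J)),
      (∀ i j, R i j ∈ TT) → ‖opMat R‖ ≤ 1 → (∀ i j, C i j ∈ TT) → ‖opMat C‖ ≤ 1 →
      ‖opMat R ∘L opMat X ∘L opMat C‖ ≤ M)
    (v w : Fin k → L2 J) (s : Finset J) (hv : ∀ q, ∀ i ∉ s, v q i = 0)
    (hw : ∀ q, ∀ i ∉ s, w q i = 0) :
    ‖∑ p, (inner ℂ (w p) (∑ q, X p q (v q)) : ℂ)‖ ≤
      M * Real.sqrt (∑ q, ‖v q‖ ^ 2) * Real.sqrt (∑ q, ‖w q‖ ^ 2) := by
  obtain ⟨C, c, η, hC, hCd, hc, hCη, hη⟩ := column_lemma v s hv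
  obtain ⟨C', c', η', hC', hCd', hc', hCη', hη'⟩ := column_lemma w s hw
  have hCn : ‖opMat fun (q : Fin k) (_ : Fin 1) => C q‖ ≤ 1 := by
    rw [diag_norm_le_iff _ (fun q _ => c q) (fun q _ => hCd q) zero_le_one]
    intro i a
    simp only [Finset.univ_unique, Finset.sum_singleton, norm_mul, mul_pow]
    rw [← Finset.sum_mul]
    gcongr
    rw [one_pow]
    exact hc i
  have hRn : ‖opMat fun (_ : Fin 1) (q : Fin k) => star (C' q)‖ ≤ 1 := by
    rw [diag_norm_le_iff _ (fun _ q i => (starRingEnd ℂ) (c' q i)) (fun _ q => (hCd' q).star)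
      zero_le_one]
    intro i a
    simp only [Finset.univ_unique, Finset.sum_singleton]
    have h1 : ‖∑ q, (starRingEnd ℂ) (c' q i) * a q‖ ≤
        Real.sqrt (∑ q, ‖c' q i‖ ^ 2) * Real.sqrt (∑ q, ‖a q‖ ^ 2) := by
      calc ‖∑ q, (starRingEnd ℂ) (c' q i) * a q‖
          ≤ ∑ q, ‖(starRingEnd ℂ) (c' q i) * a q‖ := norm_sum_le _ _
        _ = ∑ q, ‖c' q i‖ * ‖a q‖ := by
            refine Finset.sum_congr rfl fun q _ => ?_
            rw [norm_mul, RCLike.norm_conj]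
        _ ≤ _ := Real.sum_mul_le_sqrt_mul_sqrt _ _ _
    calc ‖∑ q, (starRingEnd ℂ) (c' q i) * a q‖ ^ 2
        ≤ (Real.sqrt (∑ q, ‖c' q i‖ ^ 2) * Real.sqrt (∑ q, ‖a q‖ ^ 2)) ^ 2 :=
          pow_le_pow_left₀ (norm_nonneg _) h1 2
      _ = (∑ q, ‖c' q i‖ ^ 2) * ∑ q, ‖a q‖ ^ 2 := by
          rw [mul_pow, Real.sq_sqrt (Finset.sum_nonneg fun _ _ => by positivity),
            Real.sq_sqrt (Finset.sum_nonneg fun _ _ => by positivity)]
      _ ≤ 1 ^ 2 * ∑ q, ‖a q‖ ^ 2 := by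
          rw [one_pow]
          have := hc' i
          gcongr
  have hmain := hM (fun _ q => star (C' q)) (fun q _ => C q) (fun _ q => TT_star (hC' q)) hRn
    (fun q _ => hC q) hCn
  set Z := opMat (fun (_ : Fin 1) (q : Fin k) => star (C' q)) ∘L opMat X ∘L
    opMat (fun (q : Fin k) (_ : Fin 1) => C q) with hZ
  have hval : (Z (WithLp.toLp 2 fun _ => η)) 0 = ∑ p, star (C' p) (∑ q, X p q (v q)) := by
    rw [hZ]
    simp only [ContinuousLinearMap.comp_apply]
    rw [opMat_apply]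
    refine Finset.sum_congr rfl fun p _ => ?_
    rw [opMat_apply]
    congr 1
    refine Finset.sum_congr rfl fun q _ => ?_
    rw [opMat_apply]
    simp only [Finset.univ_unique, Finset.sum_singleton]
    rw [hCη q]
  have hinner : ∑ p, (inner ℂ (w p) (∑ q, X p q (v q)) : ℂ) =
      inner ℂ η' ((Z (WithLp.toLp 2 fun _ => η)) 0) := by
    rw [hval, inner_sum]
    refine Finset.sum_congr rfl fun p _ => ?_
    rw [← hCη' p, ContinuousLinearMap.star_eq_adjoint, ContinuousLinearMap.adjoint_inner_right]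
  rw [hinner]
  have hn1 : ‖(WithLp.toLp 2 fun _ => η : Pow 1 (L2 J))‖ = ‖η‖ := pow_one_norm _
  have hs1 : Real.sqrt (∑ q, ‖v q‖ ^ 2) = ‖η‖ := by
    rw [← hη]; exact Real.sqrt_sq (norm_nonneg _)
  have hs2 : Real.sqrt (∑ q, ‖w q‖ ^ 2) = ‖η'‖ := by
    rw [← hη']; exact Real.sqrt_sq (norm_nonneg _)
  rw [hs1, hs2]
  calc ‖(inner ℂ η' ((Z (WithLp.toLp 2 fun _ => η)) 0) : ℂ)‖
      ≤ ‖η'‖ * ‖(Z (WithLp.toLp 2 fun _ => η)) 0‖ := norm_inner_le_norm _ _
    _ = ‖η'‖ * ‖Z (WithLp.toLp 2 fun _ => η)‖ := by rw [pow_one_norm]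
    _ ≤ ‖η'‖ * (M * ‖(WithLp.toLp 2 fun _ => η : Pow 1 (L2 J))‖) := by
        gcongr
        exact Z.le_of_opNorm_le hmain _
    _ = M * ‖η‖ * ‖η'‖ := by rw [hn1]; ring

/-- truncation to a finite set of coordinates -/
noncomputable def trunc (s : Finset J) (v : L2 J) : L2 J := ∑ i ∈ s, lp.single 2 i (v i)

theorem trunc_apply (s : Finset J) (v : L2 J) {i : J} (hi : i ∉ s) : trunc s v i = 0 := by
  rw [trunc, lp.coeFn_sum, Finset.sum_apply]
  refine Finset.sum_eq_zero fun j hj => ?_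
  exact lp.single_apply_ne _ _ _ (fun h => hi (h ▸ hj))

theorem trunc_tendsto (v : L2 J) : Tendsto (fun s => trunc s v) atTop (𝓝 v) :=
  lp.hasSum_single (by norm_num) v

/-- the norm of `R X C` is the norm of a composition -/
theorem rxc_norm {H : Type*} [NormedAddCommGroup H] [InnerProductSpace ℂ H] {k : ℕ}
    (R C : Fin k → Op H) (X : Fin k → Fin k → Op H) :
    ‖∑ i, ∑ j, R i * X i j * C j‖ =
      ‖opMat (fun (_ : Fin 1) j => R j) ∘L opMat X ∘L opMat (fun i (_ : Fin 1) => C i)‖ := by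
  rw [← opMat_one_norm (∑ i, ∑ j, R i * X i j * C j)]
  congr 1
  refine ContinuousLinearMap.ext fun z => PiLp.ext fun a => ?_
  simp only [ContinuousLinearMap.comp_apply]
  rw [opMat_apply, opMat_apply]
  simp only [Finset.univ_unique, Finset.sum_singleton]
  rw [sum_apply]
  refine Finset.sum_congr rfl fun i _ => ?_
  rw [opMat_apply, map_sum, sum_apply]
  refine Finset.sum_congr rfl fun j _ => ?_
  rw [opMat_apply]
  simp only [Finset.univ_unique, Finset.sum_singleton]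
  rfl

theorem norms_TT : Norms TT (⊤ : Submodule ℂ (L2 J →L[ℂ] L2 J)) := by
  intro k _ X _
  rw [matNorm_eq]
  constructor
  · rintro r ⟨R, C, -, hR, -, hC, rfl⟩
    rw [matNorm_eq] at hR hC
    rw [rxc_norm]
    calc ‖opMat (fun (_ : Fin 1) j => R j) ∘L opMat X ∘L opMat (fun i (_ : Fin 1) => C i)‖
        ≤ ‖opMat (fun (_ : Fin 1) j => R j)‖ * ‖opMat X ∘L opMat (fun i (_ : Fin 1) => C i)‖ :=
          ContinuousLinearMap.opNorm_comp_le _ _
      _ ≤ ‖opMat (fun (_ : Fin 1) j => R j)‖ *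
          (‖opMat X‖ * ‖opMat (fun i (_ : Fin 1) => C i)‖) := by
          gcongr
          exact ContinuousLinearMap.opNorm_comp_le _ _
      _ ≤ 1 * (‖opMat X‖ * 1) := by gcongr
      _ = ‖opMat X‖ := by ring
  · intro M hM
    have hM' : ∀ (R : Fin 1 → Fin k → (L2 J →L[ℂ] L2 J)) (C : Fin k → Fin 1 → (L2 J →L[ℂ] L2 J)),
        (∀ i j, R i j ∈ TT) → ‖opMat R‖ ≤ 1 → (∀ i j, C i j ∈ TT) → ‖opMat C‖ ≤ 1 →
        ‖opMat R ∘L opMat X ∘L opMat C‖ ≤ M := by
      intro R C h1 h2 h3 h4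
      have e1 : R = fun (_ : Fin 1) j => R 0 j := by
        funext i j
        rw [Subsingleton.elim i 0]
      have e2 : C = fun i (_ : Fin 1) => C i 0 := by
        funext i j
        rw [Subsingleton.elim j 0]
      rw [e1] at h2 ⊢
      rw [e2] at h4 ⊢
      rw [← rxc_norm]
      exact hM ⟨R 0, fun i => C i 0, fun i => h1 0 i, by rw [matNorm_eq]; exact h2,
        fun i => h3 i 0, by rw [matNorm_eq]; exact h4, rfl⟩
    have hz : opMat (H := L2 J) (m := 1) (n := k) (fun _ _ => 0) = 0 := by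
      ext v i x
      rw [opMat_apply]
      simp
    have hz' : opMat (H := L2 J) (m := k) (n := 1) (fun _ _ => 0) = 0 := by
      ext v i x
      rw [opMat_apply]
      simp
    have hM0 : 0 ≤ M := by
      refine le_trans (norm_nonneg _) (hM' (fun _ _ => 0) (fun _ _ => 0) (fun _ _ => TT.zero_mem) ?_
        (fun _ _ => TT.zero_mem) ?_)
      · rw [hz]; simp
      · rw [hz']; simp
    -- pass to the limit
    have hbound : ∀ v w : Fin k → L2 J, ‖∑ p, (inner ℂ (w p) (∑ q, X p q (v q)) : ℂ)‖ ≤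
        M * Real.sqrt (∑ q, ‖v q‖ ^ 2) * Real.sqrt (∑ q, ‖w q‖ ^ 2) := by
      intro v w
      have hL : Tendsto (fun s : Finset J => ‖∑ p, (inner ℂ (trunc s (w p))
          (∑ q, X p q (trunc s (v q))) : ℂ)‖) atTop
          (𝓝 ‖∑ p, (inner ℂ (w p) (∑ q, X p q (v q)) : ℂ)‖) := by
        refine Tendsto.norm ?_
        refine tendsto_finsetSum _ fun p _ => ?_
        refine (trunc_tendsto (w p)).inner ?_
        refine tendsto_finsetSum _ fun q _ => ?_
        exact ((X p q).continuous.tendsto _).comp (trunc_tendsto (v q))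
      have hR : Tendsto (fun s : Finset J => M * Real.sqrt (∑ q, ‖trunc s (v q)‖ ^ 2) *
          Real.sqrt (∑ q, ‖trunc s (w q)‖ ^ 2)) atTop
          (𝓝 (M * Real.sqrt (∑ q, ‖v q‖ ^ 2) * Real.sqrt (∑ q, ‖w q‖ ^ 2))) := by
        refine Tendsto.mul (Tendsto.mul tendsto_const_nhds ?_) ?_
        · refine (Real.continuous_sqrt.tendsto _).comp ?_
          exact tendsto_finsetSum _ fun q _ => ((trunc_tendsto (v q)).norm).pow 2
        · refine (Real.continuous_sqrt.tendsto _).comp ?_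
          exact tendsto_finsetSum _ fun q _ => ((trunc_tendsto (w q)).norm).pow 2
      refine le_of_tendsto_of_tendsto' hL hR fun s => ?_
      exact finite_support_bound X hM0 hM' (fun q => trunc s (v q)) (fun q => trunc s (w q)) s
        (fun q i hi => trunc_apply s _ hi) (fun q i hi => trunc_apply s _ hi)
    refine opMat_norm_le X hM0 fun v => ?_
    have h := hbound v (fun p => ∑ q, X p q (v q))
    set V : ℝ := ∑ q, ‖v q‖ ^ 2 with hV
    set W : ℝ := ∑ p, ‖∑ q, X p q (v q)‖ ^ 2 with hW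
    have hV0 : 0 ≤ V := Finset.sum_nonneg fun _ _ => by positivity
    have hW0 : 0 ≤ W := Finset.sum_nonneg fun _ _ => by positivity
    have h1 : ∑ p, (inner ℂ (∑ q, X p q (v q)) (∑ q, X p q (v q)) : ℂ) = (W : ℂ) := by
      rw [hW]
      push_cast
      exact Finset.sum_congr rfl fun p _ => inner_self_eq_norm_sq_to_K _
    rw [h1, Complex.norm_real, Real.norm_eq_abs, abs_of_nonneg hW0] at h
    have h4 : Real.sqrt W * Real.sqrt W = W := Real.mul_self_sqrt hW0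
    have h5 : Real.sqrt V * Real.sqrt V = V := Real.mul_self_sqrt hV0
    by_cases hz0 : Real.sqrt W = 0
    · have : W = 0 := by rw [← h4, hz0, zero_mul]
      rw [this]; positivity
    · have hpos : 0 < Real.sqrt W := lt_of_le_of_ne (Real.sqrt_nonneg _) (Ne.symm hz0)
      have h6 : Real.sqrt W ≤ M * Real.sqrt V := by
        refine le_of_mul_le_mul_right ?_ hpos
        rw [h4]; exact h
      calc W = Real.sqrt W ^ 2 := by rw [sq, h4]
        _ ≤ (M * Real.sqrt V) ^ 2 := pow_le_pow_left₀ (Real.sqrt_nonneg _) h6 2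
        _ = M ^ 2 * V := by rw [mul_pow, sq (Real.sqrt V), h5]

/-! ### The algebra `A` does not norm `B(H)` -/

/-- matrix units on the last two coordinates -/
noncomputable def mu (p q : Fin 2) : L2 J →L[ℂ] L2 J :=
  (innerSL ℂ (e (Sum.inr q : J))).smulRight (e (Sum.inr p : J))

theorem mu_apply (p q : Fin 2) (v : L2 J) : mu p q v = v (Sum.inr q) • e (Sum.inr p : J) := by
  simp [mu, inner_e]

theorem norm_sum_e (c : Fin 2 → ℂ) :
    ‖∑ p, c p • (e (Sum.inr p) : L2 J)‖ ^ 2 = ∑ p, ‖c p‖ ^ 2 := by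
  have hx : ∀ i : J, (∑ p, c p • (e (Sum.inr p) : L2 J)) i =
      Sum.elim (fun _ => 0) (fun b => c b) i := by
    intro i
    rw [lp.coeFn_sum, Finset.sum_apply]
    rcases i with n | b
    · refine Finset.sum_eq_zero fun p _ => ?_
      have : (e (Sum.inr p) : L2 J) (Sum.inl n) = 0 := e_ne (by simp)
      simp [this]
    · rw [Finset.sum_eq_single b]
      · simp [e_self]
      · intro p _ hp
        have : (e (Sum.inr p) : L2 J) (Sum.inr b) = 0 := e_ne (by simpa using hp.symm)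
        simp [this]
      · simp
  have h1 := hasSum_sq (∑ p, c p • (e (Sum.inr p) : L2 J))
  simp only [hx] at h1
  have h2 : HasSum (fun i : J => ‖Sum.elim (fun _ => (0 : ℂ)) (fun b => c b) i‖ ^ 2)
      (∑ i ∈ Finset.univ.map ⟨(Sum.inr : Fin 2 → J), Sum.inr_injective⟩,
        ‖Sum.elim (fun _ => (0 : ℂ)) (fun b => c b) i‖ ^ 2) := by
    refine hasSum_sum_of_ne_finset_zero fun i hi => ?_
    rcases i with n | b
    · simp
    · exact absurd (by simp) hi
  rw [h1.unique h2, Finset.sum_map]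
  rfl

theorem not_norms_A : ¬ Norms A (⊤ : Submodule ℂ (L2 J →L[ℂ] L2 J)) := by
  intro h
  have hlub := h 2 (by norm_num) mu (fun _ _ => trivial)
  rw [matNorm_eq] at hlub
  have hle : ‖opMat mu‖ ≤ 1 := by
    refine hlub.2 ?_
    rintro r ⟨R', C', hR', hRn, hC', hCn, rfl⟩
    rw [matNorm_eq] at hRn hCn
    rw [rxc_norm]
    set R : Fin 1 → Fin 2 → (L2 J →L[ℂ] L2 J) := fun _ j => R' j with hRdef
    set C : Fin 2 → Fin 1 → (L2 J →L[ℂ] L2 J) := fun i _ => C' i with hCdef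
    have hR : ∀ i j, R i j ∈ A := fun _ j => hR' j
    have hC : ∀ i j, C i j ∈ A := fun i _ => hC' i
    -- the values at infinity
    set ρ : Fin 2 → ℂ := fun q => sym (R 0 q) (Sum.inr 0) with hρ
    set γ : Fin 2 → ℂ := fun q => sym (C q 0) (Sum.inr 0) with hγ
    have hRinf : ∀ q p, sym (R 0 q) (Sum.inr p) = ρ q := fun q p =>
      tendsto_nhds_unique ((mem_A.1 (hR 0 q)).2 p) ((mem_A.1 (hR 0 q)).2 0)
    have hCinf : ∀ q p, sym (C q 0) (Sum.inr p) = γ q := fun q p =>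
      tendsto_nhds_unique ((mem_A.1 (hC q 0)).2 p) ((mem_A.1 (hC q 0)).2 0)
    have hγ1 : ∑ q, ‖γ q‖ ^ 2 ≤ 1 := by
      have := (diag_norm_le_iff C (fun q r => sym (C q r)) (fun q r => (mem_A.1 (hC q r)).1)
        zero_le_one).1 hCn (Sum.inr 0) (fun _ => 1)
      simpa using this
    have hρ1 : ∑ q, ‖ρ q‖ ^ 2 ≤ 1 := by
      have h1 := (diag_norm_le_iff R (fun q r => sym (R q r)) (fun q r => (mem_A.1 (hR q r)).1)
        zero_le_one).1 hRn (Sum.inr 0) (fun q => (starRingEnd ℂ) (ρ q))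
      simp only [Finset.univ_unique, Fin.default_eq_zero, Finset.sum_singleton, one_pow, one_mul,
        RCLike.norm_conj] at h1
      have h2 : ∑ q, sym (R 0 q) (Sum.inr 0) * (starRingEnd ℂ) (ρ q) =
          ((∑ q, ‖ρ q‖ ^ 2 : ℝ) : ℂ) := by
        push_cast
        refine Finset.sum_congr rfl fun q _ => ?_
        change ρ q * (starRingEnd ℂ) (ρ q) = _
        rw [Complex.mul_conj, Complex.normSq_eq_norm_sq]
        push_cast
        rfl
      rw [h2, Complex.norm_real, Real.norm_eq_abs, sq_abs] at h1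
      have h3 : 0 ≤ ∑ q, ‖ρ q‖ ^ 2 := Finset.sum_nonneg fun _ _ => by positivity
      nlinarith
    refine ContinuousLinearMap.opNorm_le_bound _ zero_le_one fun z => ?_
    rw [one_mul]
    have hval : (opMat R (opMat mu (opMat C z))) 0 =
        ∑ p, (ρ p * ∑ q, γ q * (z 0) (Sum.inr q)) • (e (Sum.inr p) : L2 J) := by
      rw [opMat_apply]
      refine Finset.sum_congr rfl fun p _ => ?_
      rw [opMat_apply]
      have h1 : ∑ q, mu p q ((opMat C z) q) =
          (∑ q, γ q * (z 0) (Sum.inr q)) • (e (Sum.inr p) : L2 J) := by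
        rw [Finset.sum_smul]
        refine Finset.sum_congr rfl fun q _ => ?_
        rw [mu_apply, opMat_apply]
        simp only [Finset.univ_unique, Fin.default_eq_zero, Finset.sum_singleton]
        rw [(mem_A.1 (hC q 0)).1, hCinf]
      rw [h1, (mem_A.1 (hR 0 p)).1.apply_single, hRinf]
    have hnorm : ‖(opMat R (opMat mu (opMat C z))) 0‖ ^ 2 =
        (∑ p, ‖ρ p‖ ^ 2) * ‖∑ q, γ q * (z 0) (Sum.inr q)‖ ^ 2 := by
      rw [hval, norm_sum_e, Finset.sum_mul]
      exact Finset.sum_congr rfl fun p _ => by rw [norm_mul, mul_pow]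
    have hz2 : ∑ q : Fin 2, ‖(z 0) (Sum.inr q)‖ ^ 2 ≤ ‖z 0‖ ^ 2 := by
      have h1 := hasSum_sq (z 0)
      have h2 := h1.summable.sum_le_tsum (Finset.univ.map ⟨(Sum.inr : Fin 2 → J), Sum.inr_injective⟩)
        (fun i _ => by positivity)
      rw [h1.tsum_eq, Finset.sum_map] at h2
      exact h2
    have hCS : ‖∑ q, γ q * (z 0) (Sum.inr q)‖ ^ 2 ≤
        (∑ q, ‖γ q‖ ^ 2) * ∑ q : Fin 2, ‖(z 0) (Sum.inr q)‖ ^ 2 := by
      have h1 : ‖∑ q, γ q * (z 0) (Sum.inr q)‖ ≤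
          ∑ q, ‖γ q‖ * ‖(z 0) (Sum.inr q)‖ := by
        refine (norm_sum_le _ _).trans (le_of_eq ?_)
        exact Finset.sum_congr rfl fun q _ => norm_mul _ _
      exact (pow_le_pow_left₀ (norm_nonneg _) h1 2).trans
        (Finset.sum_mul_sq_le_sq_mul_sq _ _ _)
    refine le_of_sq_le_sq ?_ (norm_nonneg _)
    change ‖opMat R (opMat mu (opMat C z))‖ ^ 2 ≤ ‖z‖ ^ 2
    rw [pow_one_norm, pow_one_norm, hnorm]
    have hg0 : 0 ≤ ∑ q : Fin 2, ‖(z 0) (Sum.inr q)‖ ^ 2 :=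
      Finset.sum_nonneg fun _ _ => by positivity
    calc (∑ p, ‖ρ p‖ ^ 2) * ‖∑ q, γ q * (z 0) (Sum.inr q)‖ ^ 2
        ≤ 1 * ((∑ q, ‖γ q‖ ^ 2) * ∑ q : Fin 2, ‖(z 0) (Sum.inr q)‖ ^ 2) := by gcongr
      _ ≤ 1 * (1 * ‖z 0‖ ^ 2) := by gcongr
      _ = ‖z 0‖ ^ 2 := by ring
  have h2 := opMat_le mu hle (fun q => e (Sum.inr q : J))
  have h3 : ∀ p : Fin 2, ∑ q : Fin 2, mu p q (e (Sum.inr q : J)) = (2 : ℂ) • (e (Sum.inr p) : L2 J) := by
    intro p
    simp only [mu_apply, e_self, one_smul]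
    rw [Finset.sum_const, Finset.card_univ, Fintype.card_fin, two_nsmul, two_smul]
  simp only [h3, norm_smul, norm_e] at h2
  norm_num at h2

theorem one_mem_A : (1 : L2 J →L[ℂ] L2 J) ∈ A := by
  have h : HasDiag (1 : L2 J →L[ℂ] L2 J) (fun _ => 1) := by
    intro v i
    rw [one_mul]; rfl
  refine mem_A.2 ⟨h.sym, fun b => ?_⟩
  rw [h.sym_eq]
  exact tendsto_const_nhds

end Example

/-- There are `C^*`-algebras `A ⊆ B ⊆ B(H)` (with `A` containing the identity operator) and a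
completely isometric copy of the injective envelope of `A` in `B(H)` which norms `B`, while `A`
does not norm `B`. -/
theorem result.{u} : ∃ (H : Type) (_ : NormedAddCommGroup H) (_ : InnerProductSpace ℂ H)
    (_ : CompleteSpace H) (A B T : OpSpace H),
    IsCStar A ∧ IsCStar B ∧ A ≤ B ∧ (1 : Op H) ∈ A ∧
    IsCopyOfInjectiveEnvelope.{u} A T ∧ Norms T B ∧ ¬ Norms A B :=
  ⟨L2 J, inferInstance, inferInstance, inferInstance, A, ⊤, TT, isCStar_A, isCStar_top, le_top,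
    one_mem_A, isCopy, norms_TT, not_norms_A⟩

end Pool.Agent.Results.MP_dad682_an.InjectiveEnvelopeNorming
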